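import Pool.Agent.H953R3.FH.RedMain

/-!
# Tate classes on Fermat varieties whose degree has large prime factors

Let `m = a * b` with `a` and `b > 1` relatively prime, let `r` be the number of prime factors of `a`
and let `n` be even. Suppose that every prime factor `q` of `b` satisfies
`2 ^ (r + 1) * (n + 2) < q - 1`. Then every Hodge character of degree `m` with `n + 2` entries lies
in the smallest family which contains the multiples by `b` of the Hodge characters of degree `a`,
the pairs `{a, -a}` and the standard characters of Aoki and Shioda, and which is closed under union
and under removing a pair `{a, -a}`. If all prime factors of `a` lie in `{2, 3, 5}` (or in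
`{2, 3, 7}`, or if `a` is one of the other degrees in `GoodDegree`), the Hodge characters of
surfaces of degree `m` may be taken instead of those coming from degree `a`.

By the theorems of Weil and Stickelberger on Jacobi sums, the Hodge characters are exactly those on
whose line in the cohomology of the Fermat variety, suitably twisted, an open subgroup of the Galois
group of a finitely generated field of characteristic zero acts trivially.
-/

namespace Pool.Agent.Results.MP_640417_ag.FermatLargePrimes

open Pool.Agent.H916R2

theorem result (n a b : ℕ) (ha : 0 < a) (hb : 1 < b) (hab : Nat.Coprime a b)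
    (hq : ∀ q : ℕ, q.Prime → q ∣ b → 2 ^ (a.primeFactors.card + 1) * (n + 2) < q - 1)
    (s : Multiset (ZMod (a * b))) (hs : IsHodge (a * b) s) (hc : Multiset.card s = n + 2) :
    Generated (a * b) (FromLevel (a * b) a) s ∧
      (GoodDegree a → Generated (a * b) (SurfaceCharacter (a * b)) s) := by
  have h1 : NeZero a := ⟨ha.ne'⟩
  have h2 : NeZero (a * b) := ⟨Nat.mul_ne_zero ha.ne' (by omega)⟩
  exact ⟨Pool.Agent.H953R3.FH.generated_level rfl hab hq hs hc,
    fun hgood => Pool.Agent.H953R3.FH.generated_good rfl hab hq hgood hs hc⟩

end Pool.Agent.Results.MP_640417_ag.FermatLargePrimes
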