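import Mathlib
import Pool.Agent.H977R3.WN.Main

/-!
# The Tate conjecture for abelian varieties with one Frobenius element whose eigenvalues generate
fields of prime power degree over an imaginary place

Let `A` be an abelian variety over a field `K` that is finitely generated over `ℚ`, of any
dimension and with arbitrary endomorphisms.  Suppose that for ONE closed point (with residue field
of `q = p ^ a` elements) of a model over which `A` has good reduction, the characteristic polynomial
of the Frobenius element is the product of the minimal polynomials of Weil numbers `π i` such that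

* (`Admissible`) the CM field `F i = ℚ(π i)` has degree `2 r ^ k` with an odd prime `r`, and there is
  an orbit of `r ^ k` embeddings of `F i` into an algebraic closure of `ℚ_p`, under some group of
  automorphisms of the latter, such that the sum over the orbit of the integers `N (2 s - 1)`, `s` the
  slopes of `π i`, is not divisible by `r`; or `F i` has degree `2 ^ (k + 1)`, its discriminant is
  not a square and the slopes are odd (for instance `0` and `1`);
* (`Compatible`) for `i ≠ i'`, either for all complex embeddings `φ`, `ψ` of `F i` and `F i'` some
  automorphism of `ℂ` is the identity on `φ (F i)` and the complex conjugation on `ψ (F i')`; or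
  `F i` and `F i'` contain no common imaginary quadratic field and one of them has degree `2 r ^ k`,
  where the odd prime `r` does not divide the degree of the Galois closure of the other.

Then for all primes `ℓ ≠ p` all Tate classes in the `ℓ`-adic cohomology of all powers of `A` are
linear combinations of wedge products of Tate classes of degree two; by the theorem of Faltings
these are classes of divisors.  So the Tate conjecture holds for all powers of `A`.

In the Lean statement `V` is the rational Tate module with the action `ρ` of the Galois group, `ω`
is the Weil pairing of a polarization, `χ` is the cyclotomic character and `γ` the Frobenius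
element.
-/

namespace Pool.Agent.Results.MP_640417_ag.FrobeniusPrimePower

open NumberField Module Pool.Agent.H204R3.GP Pool.Agent.H977R3.WN IntermediateField

/-- If the characteristic polynomial of one element `γ` of the Galois group is the product of the
minimal polynomials of admissible Weil numbers that generate pairwise compatible CM fields, all Tate
classes on all powers are generated in degree two. -/
theorem result (ℓ p : ℕ) [Fact ℓ.Prime] [Fact p.Prime] (a : ℕ) (ha : 0 < a)
    {ι : Type} [Fintype ι] (F : ι → Type) [∀ i, Field (F i)] [∀ i, NumberField (F i)]
    [∀ i, IsCMField (F i)] (π : ∀ i, F i) (hgen : ∀ i, ℚ⟮π i⟯ = ⊤)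
    (hweil : ∀ i, π i * IsCMField.complexConj (F i) (π i) = (p : F i) ^ a)
    (hadm : ∀ i, Admissible p a (π i)) (hcomp : ∀ i i', i ≠ i' → Compatible (F i) (F i'))
    {V : Type} [AddCommGroup V] [Module ℚ_[ℓ] V] [FiniteDimensional ℚ_[ℓ] V]
    {Γ : Type} [Group Γ] (ρ : Representation ℚ_[ℓ] Γ V) (χ : Γ →* ℚ_[ℓ])
    (ω : V →ₗ[ℚ_[ℓ]] V →ₗ[ℚ_[ℓ]] ℚ_[ℓ]) (halt : ∀ v, ω v v = 0)
    (hnondeg : ∀ u, (∀ v, ω v u = 0) → u = 0)
    (hω : ∀ s u v, ω (ρ s u) (ρ s v) = χ s * ω u v)
    (hss : FiniteIndexSemisimple ρ)
    (γ : Γ) (hχ : χ γ = (p : ℚ_[ℓ]) ^ a)
    (hγ : (ρ γ).charpoly = ∏ i, (minpoly ℚ (π i)).map (algebraMap ℚ ℚ_[ℓ])) :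
    TateGeneratedInDegreeTwo ρ χ :=
  tateGenerated ha hgen hweil hadm hcomp ρ χ ω halt hnondeg hω hss γ hχ hγ

end Pool.Agent.Results.MP_640417_ag.FrobeniusPrimePower
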