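import Mathlib
import Pool.Agent.H204R3.GP.Defs
import Pool.Agent.H204R3.GP.Neat
import Pool.Agent.H194R3.Tate.CharZero
import Pool.Agent.H194R3.Tate.Mixed

/-!
# The Tate conjecture for abelian varieties in characteristic zero: one Frobenius element with
# flipped and pair-transitive fields

Let `A` be an abelian variety over a finitely generated field of characteristic zero, of any
dimension and with arbitrary endomorphisms.  Suppose that `A` has good reduction at ONE closed
point `v` (with residue field of `p ^ a` elements) of a model, such that the characteristic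
polynomial of the Frobenius element is the product of the minimal polynomials of numbers `π i`
which generate CM fields `F i`, `π i * conj (π i) = p ^ a`, and each `π i` is of pair type or of
flip type.

Flip type: some slope of `π i` is not `1/2` and for any two complex embeddings `φ`, `ψ` of `F i`
(different and not conjugate) some automorphism of the complex numbers fixes one and conjugates the
other, or maps `φ` to `ψ` and `ψ` to the conjugate of `φ`.

Pair type: `π i` is an algebraic integer, all its powers generate `F i`, the automorphisms of the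
complex numbers act transitively on the unordered pairs of embeddings of the maximal real subfield,
its degree `n` is odd, or `n - 1` is prime, or the same holds for triples (for example if the
Galois group of the real subfield is the symmetric or alternating group), and `π i` is not of Weil
type. Here the Galois group of `F i` may be as small as `{1, conj}` times that of the real subfield.

For different `i`, `j` and embeddings `φ` of `F i` and `ψ` of `F j` some automorphism of the complex
numbers fixes one and conjugates the other. There is no other condition on the slopes.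

Then for all primes `ℓ` not divisible by `v` all Tate classes in the `ℓ`-adic cohomology of all the
powers of `A` are linear combinations of wedge products of Tate classes of degree two; by the
theorem of Faltings these are classes of divisors.  So the Tate conjecture holds for all powers
of `A`.

In the Lean statement `V` is the rational Tate module with the action `ρ` of the Galois group, `ω`
is the Weil pairing of a polarization, `χ` is the cyclotomic character and `γ` the (arithmetic)
Frobenius element at `v`.
-/

namespace Pool.Agent.Results.MP_640417_ag.MixedFrobenius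

open NumberField Module Pool.Agent.H204R3.GP Pool.Agent.H204R3.SP IntermediateField
  Pool.Agent.H194R3.CM Pool.Agent.H194R3.Tate

theorem result (ℓ p : ℕ) [Fact ℓ.Prime] [Fact p.Prime] (a : ℕ) (ha : 0 < a)
    {ι : Type} [Fintype ι] (F : ι → Type) [∀ i, Field (F i)] [∀ i, NumberField (F i)]
    [∀ i, IsCMField (F i)]
    (π : ∀ i, F i) (hgen : ∀ i, ℚ⟮π i⟯ = ⊤)
    (hweil : ∀ i, π i * IsCMField.complexConj (F i) (π i) = (p : F i) ^ a)
    (hπ : ∀ i, PairType p a (π i) ∨ FlipType p a (π i))
    (hcross : ∀ i j, i ≠ j → ∀ (φ : F i →+* ℂ) (ψ : F j →+* ℂ), CrossFlipped φ ψ)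
    {V : Type} [AddCommGroup V] [Module ℚ_[ℓ] V] [FiniteDimensional ℚ_[ℓ] V]
    {Γ : Type} [Group Γ] (ρ : Representation ℚ_[ℓ] Γ V) (χ : Γ →* ℚ_[ℓ])
    (ω : V →ₗ[ℚ_[ℓ]] V →ₗ[ℚ_[ℓ]] ℚ_[ℓ]) (halt : ∀ v, ω v v = 0)
    (hnondeg : ∀ u, (∀ v, ω v u = 0) → u = 0)
    (hω : ∀ s u v, ω (ρ s u) (ρ s v) = χ s * ω u v)
    (hss : FiniteIndexSemisimple ρ)
    (γ : Γ) (hχ : χ γ = (p : ℚ_[ℓ]) ^ a)
    (hγ : (ρ γ).charpoly = ∏ i, (minpoly ℚ (π i)).map (algebraMap ℚ ℚ_[ℓ])) :
    TateGeneratedInDegreeTwo ρ χ := by
  intro n m f hf
  obtain ⟨Δ, hΔ, hf⟩ := hf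
  have hss' : ∀ Δ : Subgroup Γ, Δ.FiniteIndex → SemiUnder (ρ '' (Δ : Set Γ)) := by
    intro Δ hΔ U hU
    obtain ⟨U', h1, h2⟩ := hss Δ hΔ U (fun s hs u hu => hU _ ⟨s, hs, rfl⟩ u hu)
    refine ⟨U', ?_, h2⟩
    rintro _ ⟨s, hs, rfl⟩ u hu
    exact h1 s hs u hu
  obtain ⟨L, hL1, hL2, j, h⟩ := Pool.Agent.H204R3.CM.exists_galois F
  let e : L →ₐ[ℚ] PadicAlgCl p := IsAlgClosed.lift
  have hweil' : ∀ i, ∀ φ : F i →+* ℂ, ‖φ (π i)‖ ^ 2 = (((p : ℚ) ^ a : ℚ) : ℝ) :=
    fun i φ => norm_of_weil p a (π i) (hweil i) φ
  have hnd := norel_of_mixed p (fun _ => a) π hweil' hπ hcross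
  have hneat := neat_of_norel p a π hweil' e (hnd L hL1 hL2 j h e)
  have h1 := altG_of_tate_mem ρ χ (n := n) (m := m) (fun φ hφ => tate_of_neat ha hgen hweil
    j h hneat ρ χ ω halt hnondeg hω hss' γ hχ hγ φ hφ) f Δ hΔ hf
  refine Submodule.span_mono ?_ h1
  rintro g ⟨B, hB, hg⟩
  refine ⟨B, fun l => ?_, hg⟩
  obtain ⟨Δ', hΔ', h2⟩ := hB l
  refine ⟨Δ', hΔ', fun s hs v => ?_⟩
  rw [pow_one]
  exact h2 s hs v

end Pool.Agent.Results.MP_640417_ag.MixedFrobenius
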